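import Mathlib

/-!
# EP-Bern: Bernoulli numbers modulo `p`

For `k + 2 ≤ p` the denominator of `B_k` is not divisible by `p`.  Proof by strong induction from `sum_bernoulli` (in `NumberTheory/Bernoulli`):
`(k + 1) B_k = [k = 0] - ∑_{j < k} (k + 1 choose j) B_j`, and `k + 1 < p`; the rational numbers with denominator prime to `p` are a subring
(e.g. `q.den.Coprime p`, or `padicValRat`/`padicNorm ≤ 1`; or use `bernoulli_den_dvd` in `Pool/Agent/Lib/MP_a3a416_nt/BernoulliBound.lean`: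
`(bernoulli (2 * k)).den ∣ primorial (2 * k + 1)`; odd `k > 1`: `bernoulli k = 0`; `k = 1`: `-1/2`).
`Rat.cast : ℚ → ZMod p` is `num / den` (`Rat.cast_def`) and additive and multiplicative on such numbers (`Rat.cast_add_of_ne_zero`,
`Rat.cast_mul_of_ne_zero`), so `bb_rec` is the image of `sum_bernoulli n` (`∑ k ∈ range n, (n.choose k : ℚ) * bernoulli k = if n = 1 then 1 else 0`).
-/

namespace Pool.Agent.Lib.MP_a3a416_nt.EP

open Finset

/-- `B_k` modulo `p` -/
noncomputable def bb (p : ℕ) [Fact p.Prime] (k : ℕ) : ZMod p :=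
  ((bernoulli k).num : ZMod p) / ((bernoulli k).den : ZMod p)

private theorem dn_add {p : ℕ} (hp : p.Prime) {a b : ℚ} (ha : ¬ p ∣ a.den) (hb : ¬ p ∣ b.den) :
    ¬ p ∣ (a + b).den := by
  intro h
  rcases (Nat.Prime.dvd_mul hp).1 (h.trans (Rat.add_den_dvd a b)) with h1 | h1
  · exact ha h1
  · exact hb h1

private theorem dn_mul {p : ℕ} (hp : p.Prime) {a b : ℚ} (ha : ¬ p ∣ a.den) (hb : ¬ p ∣ b.den) :
    ¬ p ∣ (a * b).den := by
  intro h
  rcases (Nat.Prime.dvd_mul hp).1 (h.trans (Rat.mul_den_dvd a b)) with h1 | h1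
  · exact ha h1
  · exact hb h1

private theorem dn_nat {p : ℕ} (hp : p.Prime) (n : ℕ) : ¬ p ∣ (n : ℚ).den := by
  rw [Rat.den_natCast]
  exact hp.one_lt.ne' ∘ Nat.dvd_one.1

private theorem dn_sum {p : ℕ} (hp : p.Prime) (s : Finset ℕ) (f : ℕ → ℚ)
    (h : ∀ i ∈ s, ¬ p ∣ (f i).den) : ¬ p ∣ (∑ i ∈ s, f i).den := by
  classical
  induction s using Finset.induction_on with
  | empty =>
    rw [Finset.sum_empty]
    exact_mod_cast dn_nat hp 0
  | insert a s ha ih =>
    rw [Finset.sum_insert ha]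
    exact dn_add hp (h a (Finset.mem_insert_self a s))
      (ih fun i hi => h i (Finset.mem_insert_of_mem hi))

private theorem dn_bernoulli {p : ℕ} (hp : p.Prime) (k : ℕ) (hk : k + 2 ≤ p) :
    ¬ p ∣ (bernoulli k).den := by
  induction k using Nat.strong_induction_on with
  | _ k ih =>
    have h1 := sum_bernoulli (k + 1)
    rw [Finset.sum_range_succ] at h1
    have h2 : ((k + 1).choose k : ℚ) = ((k + 1 : ℕ) : ℚ) := by
      rw [Nat.choose_succ_self_right]
    rw [h2] at h1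
    have h3 : ((k + 1 : ℕ) : ℚ) ≠ 0 := by exact_mod_cast Nat.succ_ne_zero k
    have h4 : bernoulli k = (((k + 1 : ℕ) : ℚ))⁻¹ * ((if k + 1 = 1 then 1 else 0) +
        ∑ j ∈ range k, ((-1 : ℚ) * ((k + 1).choose j : ℚ)) * bernoulli j) := by
      have h5 : ((k + 1 : ℕ) : ℚ) * bernoulli k = (if k + 1 = 1 then 1 else 0) -
          ∑ j ∈ range k, ((k + 1).choose j : ℚ) * bernoulli j := by
        linarith
      have h6 : ∑ j ∈ range k, ((-1 : ℚ) * ((k + 1).choose j : ℚ)) * bernoulli j =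
          - ∑ j ∈ range k, ((k + 1).choose j : ℚ) * bernoulli j := by
        rw [← Finset.sum_neg_distrib]
        exact Finset.sum_congr rfl fun j _ => by ring
      rw [h6, ← sub_eq_add_neg, ← h5, ← mul_assoc, inv_mul_cancel₀ h3, one_mul]
    rw [h4]
    refine dn_mul hp ?_ (dn_add hp ?_ (dn_sum hp _ _ fun j hj => ?_))
    · rw [Rat.inv_natCast_den, if_neg (Nat.succ_ne_zero k)]
      intro h
      have := Nat.le_of_dvd (Nat.succ_pos k) h
      omega
    · split_ifs
      · exact_mod_cast dn_nat hp 1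
      · exact_mod_cast dn_nat hp 0
    · have hj' := mem_range.1 hj
      refine dn_mul hp (dn_mul hp ?_ (dn_nat hp _)) (ih j hj' (by omega))
      rw [Rat.den_neg_eq_den]
      exact_mod_cast dn_nat hp 1

private theorem zn {p : ℕ} [Fact p.Prime] {q : ℚ} (h : ¬ p ∣ q.den) : ((q.den : ℕ) : ZMod p) ≠ 0 := by
  intro h1
  exact h ((ZMod.natCast_eq_zero_iff _ _).1 h1)

private theorem cast_sum {p : ℕ} [Fact p.Prime] (s : Finset ℕ) (f : ℕ → ℚ)
    (h : ∀ i ∈ s, ¬ p ∣ (f i).den) :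
    ((∑ i ∈ s, f i : ℚ) : ZMod p) = ∑ i ∈ s, ((f i : ℚ) : ZMod p) := by
  classical
  have hp : p.Prime := Fact.out
  induction s using Finset.induction_on with
  | empty => rw [Finset.sum_empty, Finset.sum_empty, Rat.cast_zero]
  | insert a s ha ih =>
    rw [Finset.sum_insert ha, Finset.sum_insert ha,
      Rat.cast_add_of_ne_zero (zn (h a (Finset.mem_insert_self a s)))
        (zn (dn_sum hp s f fun i hi => h i (Finset.mem_insert_of_mem hi))),
      ih fun i hi => h i (Finset.mem_insert_of_mem hi)]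

private theorem bb_cast (p : ℕ) [Fact p.Prime] (k : ℕ) : bb p k = ((bernoulli k : ℚ) : ZMod p) := by
  rw [Rat.cast_def]
  rfl

theorem bb_rec (p : ℕ) [Fact p.Prime] (n : ℕ) (hn : n + 1 ≤ p) :
    ∑ k ∈ range n, ((n.choose k : ℕ) : ZMod p) * bb p k = if n = 1 then 1 else 0 := by
  have hp : p.Prime := Fact.out
  have h1 : ((∑ k ∈ range n, (n.choose k : ℚ) * bernoulli k : ℚ) : ZMod p) =
      ((if n = 1 then (1 : ℚ) else 0 : ℚ) : ZMod p) := by rw [sum_bernoulli n]
  have hd : ∀ k ∈ range n, ¬ p ∣ (((n.choose k : ℕ) : ℚ) * bernoulli k).den := fun k hk =>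
    dn_mul hp (dn_nat hp _) (dn_bernoulli hp k (by have := mem_range.1 hk; omega))
  rw [cast_sum (range n) _ hd] at h1
  have h2 : ((if n = 1 then (1 : ℚ) else 0 : ℚ) : ZMod p) = if n = 1 then 1 else 0 := by
    split_ifs
    · exact Rat.cast_one
    · exact Rat.cast_zero
  rw [h2] at h1
  rw [← h1]
  refine Finset.sum_congr rfl fun k hk => ?_
  rw [bb_cast, Rat.cast_mul_of_ne_zero (zn (dn_nat hp _))
    (zn (dn_bernoulli hp k (by have := mem_range.1 hk; omega))), Rat.cast_natCast]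

theorem bb_zero (p : ℕ) [Fact p.Prime] (k : ℕ) (hk : k + 2 ≤ p) :
    bb p k = 0 ↔ (p : ℤ) ∣ (bernoulli k).num := by
  have hp : p.Prime := Fact.out
  unfold bb
  rw [div_eq_zero_iff, or_iff_left (zn (dn_bernoulli hp k hk)), ZMod.intCast_zmod_eq_zero_iff_dvd]

end Pool.Agent.Lib.MP_a3a416_nt.EP
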